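import Pool.Agent.U866.OM.Asm
import Pool.Agent.U61.OM.INV
import Pool.Agent.U873.OM.RM
import Pool.Agent.U451.OM.SC
import Pool.Agent.U278.OM.IBP
import Pool.Agent.U612.OM.T
import Pool.Agent.U99.OM.SMALL
import Pool.Agent.U744.OM.TRIG
import Pool.Agent.U908.OM.PSI
import Pool.Agent.U511.OM.CUT
import Pool.Agent.U97.OM.AVG
import Pool.Agent.U123.OM.POS
import Pool.Agent.U141.OM.ZERO
import Pool.Agent.U624.OM.FAM
import Pool.Agent.U438.OM.JC
import Pool.Agent.U461.OM.Int
import Pool.Agent.U884.OM.PT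
import Pool.Agent.U255.OM.SUB

/-!
# No hypersurface is outer minimizing for the integral of its scalar curvature (MP_a8efab_gt, Q2)

Let `G` be a smooth Riemannian metric on an open neighbourhood `U` of `0` in
`ℝ^(m+1) = {(t, x)}`, `m ≥ 3`, with `G = δ` at `0`, and consider the hypersurface `t = 0`. For every
`r > 0` there are a radius `ρ < r` and a smooth function `u` with `0 ≤ u ≤ r`, `|du| ≤ r`, whose
support lies in the ball of radius `ρ`, such that `∫ R dA` is smaller on the part of the graph `t = u(x)`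
above this ball than on the part of the hypersurface `t = 0`.

Such coordinates exist at every point of the boundary `Σ` of a Riemannian manifold `M` (with `Σ = {t = 0}`
and `M = {t ≥ 0}`). So `Σ` can always be pushed out a little, inside an arbitrarily small neighbourhood of
a point, to a hypersurface enclosing it with smaller `∫ R`: the condition that no hypersurface enclosing
`Σ` has a smaller value of `∫ R` is never satisfied, in any dimension `n = m + 1 ≥ 4`, and the Penrose
inequality of Q2 holds vacuously.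

Outline. By rescaling at the point, `u_ε(x) = ε v(x/ε)`, it is enough to find a smooth `v ≥ 0` with compact
support on `ℝ^m` whose graph in Euclidean space has `∫ R dA < 0`. By Gauss' equation and integration by
parts `∫ R dA = - ∫ Q(v) / (1 + |Dv|²)^(3/2)` with `Q(v) = Δv · D²v(Dv, Dv) - |D²v Dv|²`. For
`φ = cos x₀ cos x₁ + sin x₀ sin x₂` the mean value of `Q(φ)` is `3/16 > 0`, and one takes
`v = δ χ(ηx) (2 + φ(x))` with small `δ`, `η` and a cut-off function `χ`.
-/

set_option autoImplicit false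

open Pool.Agent.H498R3.GB Metric
open scoped ContDiff

namespace Pool.Agent.Results.MP_a8efab_gt.NoOuterMinimizers

/-- The point `(t, x)` of `ℝ × ℝ^m = ℝ^(m+1)`; the coordinate with index `0` is the height `t`. -/
noncomputable def cpt {m : ℕ} (t : ℝ) (x : E m) : E (m + 1) := WithLp.toLp 2 (Fin.cons t x.ofLp)

/-- The Riemannian metric induced by `G` on the graph of `u`, in the coordinates `x`: the pull-back
`G_ab ∂_i X^a ∂_j X^b` of `G` under `X x = (u x, x)`. -/
noncomputable def graphMetric {m : ℕ} (G : MetricField (m + 1)) (u : E m → ℝ) : MetricField m := fun x =>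
  Matrix.of fun i j => ∑ a, ∑ b,
    G (cpt (u x) x) a b * pd i (fun z => cpt (u z) z a) x * pd j (fun z => cpt (u z) z b) x

/-- The integral of the scalar curvature of `h` over `W` with respect to the volume of `h`. -/
noncomputable def totalScal {m : ℕ} (h : MetricField m) (W : Set (E m)) : ℝ :=
  ∫ x in W, Scal h x * volDensity h x

open Pool.Agent.U866.OM in
theorem result (m : ℕ) (hm : 3 ≤ m) (G : MetricField (m + 1)) (U : Set (E (m + 1))) (hU : IsOpen U)
    (h0 : 0 ∈ U) (hG : IsRiemannianOn G U) (h1 : G 0 = 1) (r : ℝ) (hr : 0 < r) :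
    ∃ (ρ : ℝ) (u : E m → ℝ), 0 < ρ ∧ ρ < r ∧ ContDiff ℝ ∞ u ∧ tsupport u ⊆ ball 0 ρ ∧
      (∀ x, 0 ≤ u x ∧ u x ≤ r ∧ ‖fderiv ℝ u x‖ ≤ r) ∧
      (∀ x ∈ closedBall (0 : E m) ρ, ∀ t ∈ Set.Icc 0 (u x), cpt t x ∈ U) ∧
      ContinuousOn (fun x => Scal (graphMetric G u) x * volDensity (graphMetric G u) x)
        (closedBall 0 ρ) ∧
      ContinuousOn (fun x => Scal (graphMetric G 0) x * volDensity (graphMetric G 0) x)
        (closedBall 0 ρ) ∧
      totalScal (graphMetric G u) (ball 0 ρ) < totalScal (graphMetric G 0) (ball 0 ρ) := by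
  have hINV : S_INV := Pool.Agent.U61.OM.t_INV
  have hRM : S_RM := Pool.Agent.U873.OM.t_RM hINV
  have hSC : S_SC := Pool.Agent.U866.OM.t_SC hRM hINV
  have hT : S_T := Pool.Agent.U612.OM.t_T hSC Pool.Agent.U278.OM.t_IBP
  have hPOS : S_POS := Pool.Agent.U123.OM.t_POS Pool.Agent.U744.OM.t_TRIG Pool.Agent.U908.OM.t_PSI
    Pool.Agent.U511.OM.t_CUT Pool.Agent.U97.OM.t_AVG
  exact Pool.Agent.U866.OM.main hSC hT Pool.Agent.U99.OM.t_SMALL hPOS Pool.Agent.U141.OM.t_ZERO
    Pool.Agent.U624.OM.t_FAM Pool.Agent.U438.OM.t_JC Pool.Agent.U461.OM.t_INT Pool.Agent.U884.OM.t_PT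
    Pool.Agent.U255.OM.t_SUB m hm G U hU h0 hG h1 r hr

end Pool.Agent.Results.MP_a8efab_gt.NoOuterMinimizers
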